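import Mathlib
import Pool.Agent.H86.CMLib.TH118.CR.Irr

/-!
# A conjugation stable space of operators with a common invariant plane
-/

set_option linter.unusedSectionVars false

namespace Pool.Agent.TH118.CU

open Module Pool.Agent.H204R3.SP Pool.Agent.H204R3.GP Pool.Agent.W522.U Pool.Agent.TH118.CR

noncomputable section

variable {K : Type} [Field K] [CharZero K] {X : Type} [AddCommGroup X] [Module K X]
  [FiniteDimensional K X] {Γ : Type} [Group Γ] {R : Representation K Γ X}

section plane

variable {l l' : X} {φ φ' : X →ₗ[K] K}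

/-- The trace on the plane spanned by `l`, `l'`. -/
def tr2 (l l' : X) (φ φ' : X →ₗ[K] K) (x : End K X) : K := φ (x l) + φ' (x l')

/-- The determinant on the plane. -/
def det2 (l l' : X) (φ φ' : X →ₗ[K] K) (x : End K X) : K :=
  (tr2 l l' φ φ' x ^ 2 - tr2 l l' φ φ' (x * x)) / 2

variable (h11 : φ l = 1) (h12 : φ l' = 0) (h21 : φ' l = 0) (h22 : φ' l' = 1)

include h11 h12 h21 h22

theorem plane_coord {v : X} (hv : v ∈ Submodule.span K {l, l'}) : v = φ v • l + φ' v • l' := by
  obtain ⟨a, b, rfl⟩ := Submodule.mem_span_pair.1 hv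
  rw [map_add, map_add, map_smul, map_smul, map_smul, map_smul, h11, h12, h21, h22]
  simp

theorem cayley {x : End K X} (hx : ∀ u ∈ Submodule.span K {l, l'}, x u ∈ Submodule.span K {l, l'}) :
    ∀ u ∈ Submodule.span K {l, l'},
      x (x u) - tr2 l l' φ φ' x • x u + det2 l l' φ φ' x • u = 0 := by
  have hl : l ∈ Submodule.span K {l, l'} := Submodule.subset_span (by simp)
  have hl' : l' ∈ Submodule.span K {l, l'} := Submodule.subset_span (by simp)
  have e1 := plane_coord h11 h12 h21 h22 (hx l hl)
  have e2 := plane_coord h11 h12 h21 h22 (hx l' hl')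
  set a := φ (x l) with ha
  set b := φ' (x l) with hb
  set c := φ (x l') with hc
  set d := φ' (x l') with hd
  have ht : tr2 l l' φ φ' x = a + d := rfl
  have e3 : x (x l) = (a * a + b * c) • l + (a * b + b * d) • l' := by
    conv_lhs => rw [e1]
    rw [map_add, map_smul, map_smul, e1, e2]
    module
  have e4 : x (x l') = (c * a + d * c) • l + (c * b + d * d) • l' := by
    conv_lhs => rw [e2]
    rw [map_add, map_smul, map_smul, e1, e2]
    module
  have hn : det2 l l' φ φ' x = a * d - b * c := by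
    have h1 : tr2 l l' φ φ' (x * x) = a * a + b * c + (c * b + d * d) := by
      unfold tr2
      rw [Module.End.mul_apply, Module.End.mul_apply, e3, e4, map_add, map_add, map_smul, map_smul,
        map_smul, map_smul, h11, h12, h21, h22]
      simp
    rw [det2, h1, ht]
    ring
  intro u hu
  obtain ⟨p, q, rfl⟩ := Submodule.mem_span_pair.1 hu
  rw [map_add, map_smul, map_smul, map_add, map_smul, map_smul, e3, e4, hn, ht, e1, e2]
  module

theorem tr_eig [IsAlgClosed K] {x : End K X}
    (hx : ∀ u ∈ Submodule.span K {l, l'}, x u ∈ Submodule.span K {l, l'}) :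
    ∃ α β : K, tr2 l l' φ φ' x = α + β ∧ (∃ w, w ≠ 0 ∧ x w = α • w) ∧ ∃ w, w ≠ 0 ∧ x w = β • w := by
  have hl : l ∈ Submodule.span K {l, l'} := Submodule.subset_span (by simp)
  have hl0 : l ≠ 0 := by
    rintro rfl
    rw [map_zero] at h11
    exact zero_ne_one h11
  have hch := cayley h11 h12 h21 h22 hx
  set t := tr2 l l' φ φ' x with ht
  set n := det2 l l' φ φ' x with hn
  obtain ⟨δ, hδ⟩ := IsAlgClosed.exists_pow_nat_eq (t ^ 2 - 4 * n) (n := 2) (by norm_num)
  have key : ∀ α β : K, α + β = t → α * β = n → ∃ w, w ≠ 0 ∧ x w = α • w := by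
    intro α β h1 h2
    by_cases h3 : ∃ u ∈ Submodule.span K {l, l'}, x u - β • u ≠ 0
    · obtain ⟨u, hu, hu0⟩ := h3
      refine ⟨_, hu0, ?_⟩
      have h4 := hch u hu
      rw [← h1, ← h2] at h4
      rw [map_sub, map_smul, ← sub_eq_zero, ← h4]
      module
    · push Not at h3
      have h4 : x l = β • l := sub_eq_zero.1 (h3 l hl)
      have h5 : x l' = β • l' := sub_eq_zero.1 (h3 l' (Submodule.subset_span (by simp)))
      have h6 : t = 2 * β := by
        rw [ht, tr2, h4, h5, map_smul, map_smul, h11, h22]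
        simp only [smul_eq_mul]
        ring
      have h7 : α = β := by linear_combination h1 + h6
      rw [h7]
      exact ⟨l, hl0, h4⟩
  refine ⟨(t + δ) / 2, (t - δ) / 2, by ring, key _ ((t - δ) / 2) (by ring) ?_,
    key _ ((t + δ) / 2) (by ring) ?_⟩
  · linear_combination -(1 / 4 : K) * hδ
  · linear_combination -(1 / 4 : K) * hδ

end plane

/-- The eigenvalues of an operator form a finite set. -/
theorem eig_finite (x : End K X) : {α : K | ∃ w, w ≠ 0 ∧ x w = α • w}.Finite := by
  have h1 : {α : K | ∃ w, w ≠ 0 ∧ x w = α • w} ⊆ {α | Module.End.HasEigenvalue x α} := by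
    rintro α ⟨w, hw, hxw⟩
    exact Module.End.hasEigenvalue_of_hasEigenvector (x := w)
      ⟨Module.End.mem_eigenspace_iff.2 hxw, hw⟩
  exact (Module.End.finite_hasEigenvalue x).subset h1

/-- **Rigidity.** A conjugation stable space of operators that preserves a plane in a strongly
irreducible subspace acts through quadratic operators. -/
theorem rigid [IsAlgClosed K] {U : Submodule K X} (hU : SI R U) (L : Submodule K (End K X))
    (hconj : ∀ g : Γ, ∀ Y ∈ L, R g * Y * R g⁻¹ ∈ L) {l l' : X} (hl : l ∈ U)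
    {φ φ' : X →ₗ[K] K} (h11 : φ l = 1) (h12 : φ l' = 0) (h21 : φ' l = 0) (h22 : φ' l' = 1)
    (hP : ∀ Y ∈ L, Y l ∈ Submodule.span K {l, l'} ∧ Y l' ∈ Submodule.span K {l, l'}) :
    ∀ Y ∈ L, ∀ u ∈ U, Y (Y u) - tr2 l l' φ φ' Y • Y u + det2 l l' φ φ' Y • u = 0 := by
  classical
  set P : Submodule K X := Submodule.span K {l, l'} with hPdef
  have hlP : l ∈ P := Submodule.subset_span (by simp)
  have hl'P : l' ∈ P := Submodule.subset_span (by simp)
  have hl0 : l ≠ 0 := by
    rintro rfl
    rw [map_zero] at h11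
    exact zero_ne_one h11
  let A : Submodule K (End K X) :=
    { carrier := {x | ∀ g : Γ, ∀ u ∈ P, R g⁻¹ (x (R g u)) ∈ P}
      zero_mem' := by
        intro g u _
        rw [LinearMap.zero_apply, map_zero]
        exact P.zero_mem
      add_mem' := by
        intro x y hx hy g u hu
        rw [LinearMap.add_apply, map_add]
        exact P.add_mem (hx g u hu) (hy g u hu)
      smul_mem' := by
        intro c x hx g u hu
        rw [LinearMap.smul_apply, map_smul]
        exact P.smul_mem c (hx g u hu) }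
  have hLA : L ≤ A := by
    intro Y hY g u hu
    have h1 : R g⁻¹ * Y * R g ∈ L := by
      have h2 := hconj g⁻¹ Y hY
      rwa [inv_inv] at h2
    obtain ⟨h3, h4⟩ := hP _ h1
    obtain ⟨p, q, rfl⟩ := Submodule.mem_span_pair.1 hu
    have h5 : R g⁻¹ (Y (R g (p • l + q • l'))) = p • (R g⁻¹ * Y * R g) l +
        q • (R g⁻¹ * Y * R g) l' := by
      simp only [map_add, map_smul, Module.End.mul_apply]
    rw [h5]
    exact P.add_mem (P.smul_mem _ h3) (P.smul_mem _ h4)
  have hAmul : ∀ x ∈ A, ∀ y ∈ A, x * y ∈ A := by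
    intro x hx y hy g u hu
    have h1 : R g⁻¹ ((x * y) (R g u)) = R g⁻¹ (x (R g (R g⁻¹ (y (R g u))))) := by
      rw [Rinv', Module.End.mul_apply]
    rw [h1]
    exact hx g _ (hy g u hu)
  have hAconj : ∀ g : Γ, ∀ x ∈ A, R g⁻¹ * x * R g ∈ A := by
    intro g x hx h u hu
    have h1 : R h⁻¹ ((R g⁻¹ * x * R g) (R h u)) = R (g * h)⁻¹ (x (R (g * h) u)) := by
      rw [Module.End.mul_apply, Module.End.mul_apply, mul_inv_rev, map_mul, map_mul,
        Module.End.mul_apply, Module.End.mul_apply]
    rw [h1]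
    exact hx (g * h) u hu
  have hAconj' : ∀ g : Γ, ∀ x ∈ A, R g * x * R g⁻¹ ∈ A := by
    intro g x hx
    have h1 := hAconj g⁻¹ x hx
    rwa [inv_inv] at h1
  have hApres : ∀ x ∈ A, ∀ u ∈ P, x u ∈ P := by
    intro x hx u hu
    have h1 := hx 1 u hu
    simpa using h1
  let t : End K X →ₗ[K] K :=
    { toFun := fun x => tr2 l l' φ φ' x
      map_add' := by
        intro x y
        simp only [tr2, LinearMap.add_apply, map_add]
        ring
      map_smul' := by
        intro c x
        simp only [tr2, LinearMap.smul_apply, map_smul, smul_eq_mul, RingHom.id_apply]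
        ring }
  have ht : ∀ x, t x = tr2 l l' φ φ' x := fun _ => rfl
  -- conjugation cancels
  have hcan : ∀ (g : Γ) (x : End K X), R g⁻¹ * (R g * x * R g⁻¹) * R g = x := by
    intro g x
    have h1 : R g⁻¹ * R g = 1 := by rw [← map_mul, inv_mul_cancel, map_one]
    calc R g⁻¹ * (R g * x * R g⁻¹) * R g = (R g⁻¹ * R g) * x * (R g⁻¹ * R g) := by noncomm_ring
      _ = x := by rw [h1, one_mul, mul_one]
  let H : Subgroup Γ :=
    { carrier := {g | ∀ x ∈ A, t (R g⁻¹ * x * R g) = t x}
      one_mem' := by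
        intro x _
        rw [inv_one, map_one, one_mul, mul_one]
      mul_mem' := by
        intro g h hg hh x hx
        have h1 : R (g * h)⁻¹ * x * R (g * h) = R h⁻¹ * (R g⁻¹ * x * R g) * R h := by
          rw [mul_inv_rev, map_mul, map_mul]
          noncomm_ring
        rw [h1, hh _ (hAconj g x hx), hg x hx]
      inv_mem' := by
        intro g hg x hx
        have h1 := hg _ (hAconj' g x hx)
        rw [hcan] at h1
        rw [inv_inv, h1] }
  -- finiteness
  let b := Module.finBasis K A
  let F : Fin (finrank K A) → Set K := fun i =>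
    Set.image2 (· + ·) {α : K | ∃ w, w ≠ 0 ∧ (b i).1 w = α • w}
      {α : K | ∃ w, w ≠ 0 ∧ (b i).1 w = α • w}
  have hF : ∀ i, (F i).Finite := fun i => Set.Finite.image2 _ (eig_finite _) (eig_finite _)
  let T : Set (Fin (finrank K A) → K) := {v | ∀ i, v i ∈ F i}
  have hT : T.Finite := by
    have h1 : T = Set.pi Set.univ F := by
      ext v
      simp [T]
    rw [h1]
    exact Set.Finite.pi fun i => hF i
  have hTf : Finite T := hT
  have hval : ∀ g : Γ, (fun i => t (R g⁻¹ * (b i).1 * R g)) ∈ T := by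
    intro g i
    obtain ⟨α, β, h1, ⟨w, hw, h2⟩, ⟨w', hw', h3⟩⟩ := tr_eig h11 h12 h21 h22
      (hApres _ (hAconj g _ (b i).2))
    have hmove : ∀ (w : X) (α : K), (R g⁻¹ * (b i).1 * R g) w = α • w →
        (b i).1 (R g w) = α • R g w := by
      intro w α h
      rw [Module.End.mul_apply, Module.End.mul_apply] at h
      rw [← map_smul, ← h, Rinv']
    refine ⟨α, ⟨R g w, Rne g hw, hmove w α h2⟩, β, ⟨R g w', Rne g hw', hmove w' β h3⟩, ?_⟩
    exact h1.symm
  have hH : H.FiniteIndex := by
    refine fi_of_map H (T := T) (fun g => ⟨_, hval g⟩) fun g g' hgg' x hx => ?_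
    have h1 : ∀ i, t (R g⁻¹ * (b i).1 * R g) = t (R g'⁻¹ * (b i).1 * R g') := fun i =>
      congrFun (congrArg Subtype.val hgg') i
    have h2 : ∀ y ∈ A, t (R g⁻¹ * y * R g) = t (R g'⁻¹ * y * R g') := by
      let L1 : A →ₗ[K] K :=
        { toFun := fun y => t (R g⁻¹ * y.1 * R g)
          map_add' := by
            intro y z
            rw [Submodule.coe_add, mul_add, add_mul, map_add]
          map_smul' := by
            intro c y
            rw [Submodule.coe_smul, mul_smul_comm, smul_mul_assoc, map_smul, RingHom.id_apply] }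
      let L2 : A →ₗ[K] K :=
        { toFun := fun y => t (R g'⁻¹ * y.1 * R g')
          map_add' := by
            intro y z
            rw [Submodule.coe_add, mul_add, add_mul, map_add]
          map_smul' := by
            intro c y
            rw [Submodule.coe_smul, mul_smul_comm, smul_mul_assoc, map_smul, RingHom.id_apply] }
      have h3 : L1 = L2 := b.ext h1
      intro y hy
      exact congrArg (fun f : A →ₗ[K] K => f ⟨y, hy⟩) h3
    have h4 := h2 _ (hAconj' g x hx)
    rw [hcan] at h4
    have h5 : R (g⁻¹ * g')⁻¹ * x * R (g⁻¹ * g') = R g'⁻¹ * (R g * x * R g⁻¹) * R g' := by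
      rw [mul_inv_rev, inv_inv, map_mul, map_mul]
      noncomm_ring
    rw [h5, ← h4]
  obtain ⟨D, hD, hDU⟩ := hU.2.1
  let W : Submodule K X :=
    { carrier := {u | u ∈ U ∧ ∀ x ∈ A, x (x u) - tr2 l l' φ φ' x • x u +
        det2 l l' φ φ' x • u = 0}
      zero_mem' := ⟨U.zero_mem, fun x _ => by simp⟩
      add_mem' := fun {u v} hu hv => ⟨U.add_mem hu.1 hv.1, fun x hx => by
        have h1 := hu.2 x hx
        have h2 := hv.2 x hx
        have h3 := congrArg₂ (· + ·) h1 h2
        simp only [add_zero] at h3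
        rw [← h3, map_add, map_add]
        module⟩
      smul_mem' := fun c u hu => ⟨U.smul_mem c hu.1, fun x hx => by
        have h1 := congrArg (c • ·) (hu.2 x hx)
        simp only [smul_zero] at h1
        rw [← h1, map_smul, map_smul]
        module⟩ }
  have hW : Pot R W := by
    refine ⟨D ⊓ H, inferInstance, fun g hg u hu => ⟨hDU g hg.1 u hu.1, fun x hx => ?_⟩⟩
    have hy := hAconj g x hx
    have h1 := hu.2 _ hy
    have h2 : tr2 l l' φ φ' (R g⁻¹ * x * R g) = tr2 l l' φ φ' x := hg.2 x hx
    have h3 : tr2 l l' φ φ' ((R g⁻¹ * x * R g) * (R g⁻¹ * x * R g)) = tr2 l l' φ φ' (x * x) := by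
      have h4 : (R g⁻¹ * x * R g) * (R g⁻¹ * x * R g) = R g⁻¹ * (x * x) * R g := by
        have h5 : R g * R g⁻¹ = 1 := by rw [← map_mul, mul_inv_cancel, map_one]
        calc (R g⁻¹ * x * R g) * (R g⁻¹ * x * R g) = R g⁻¹ * x * (R g * R g⁻¹) * x * R g := by
              noncomm_ring
          _ = R g⁻¹ * (x * x) * R g := by rw [h5]; noncomm_ring
      rw [h4]
      exact hg.2 _ (hAmul x hx x hx)
    have h6 : det2 l l' φ φ' (R g⁻¹ * x * R g) = det2 l l' φ φ' x := by
      rw [det2, det2, h2, h3]
    rw [h2, h6] at h1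
    have h7 := congrArg (R g) h1
    simp only [Module.End.mul_apply, map_add, map_sub, map_smul, map_zero, Rinv'] at h7
    exact h7
  rcases hU.2.2 W (fun u hu => hu.1) hW with h | h
  · exfalso
    have h1 : l ∈ W := ⟨hl, fun x hx => cayley h11 h12 h21 h22 (hApres x hx) l hlP⟩
    rw [h, Submodule.mem_bot] at h1
    exact hl0 h1
  · intro Y hY
    intro u hu
    rw [← h] at hu
    exact hu.2 Y (hLA hY)

end

end Pool.Agent.TH118.CU
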