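import Mathlib
import Pool.Agent.H86.CMLib.TH118.CU.Bi

/-!
# A nilpotent element of rank at most two from a symplectic bireflection
-/

set_option linter.unusedSectionVars false

namespace Pool.Agent.TH118.CU

open Module Pool.Agent.H204R3.SP Pool.Agent.H204R3.GP Pool.Agent.W522.U Pool.Agent.TH118.CR
open Pool.Agent.W529.Ta

variable {K : Type} [Field K] [CharZero K] {X : Type} [AddCommGroup X] [Module K X]
  [FiniteDimensional K X] {Γ : Type} [Group Γ]

variable {R : Representation K Γ X} {χ : Γ →* K}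

/-- The average is an eigenvector for the conjugation. -/
theorem avg_semi {γ : Γ} {k : ℕ} (hγ : R γ ^ k = 1) {μ : K} (hμk : μ ^ k = 1) (hμ0 : μ ≠ 0)
    (Y : End K X) (u : X) : R γ (avg R γ k μ Y u) = μ • avg R γ k μ Y (R γ u) := by
  have hk : R (γ ^ k) = 1 := by rw [map_pow, hγ]
  let f : ℕ → X := fun t => (μ⁻¹) ^ t • R (γ ^ t) (Y (R (γ ^ t)⁻¹ (R γ u)))
  have h1 : avg R γ k μ Y (R γ u) = ∑ t ∈ Finset.range k, f t := by
    rw [avg, LinearMap.sum_apply]
    rfl
  have h2 : R γ (avg R γ k μ Y u) = μ • ∑ t ∈ Finset.range k, f (t + 1) := by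
    rw [avg, LinearMap.sum_apply, map_sum, Finset.smul_sum]
    refine Finset.sum_congr rfl fun t _ => ?_
    have h3 : R (γ ^ (t + 1))⁻¹ (R γ u) = R (γ ^ t)⁻¹ u := by
      rw [← Module.End.mul_apply, ← map_mul]
      congr 2
      rw [pow_succ', mul_inv_rev, mul_assoc, inv_mul_cancel, mul_one]
    change R γ ((μ⁻¹) ^ t • (R (γ ^ t) * Y * R (γ ^ t)⁻¹) u) =
      μ • ((μ⁻¹) ^ (t + 1) • R (γ ^ (t + 1)) (Y (R (γ ^ (t + 1))⁻¹ (R γ u))))
    rw [h3, map_smul, smul_smul, pow_succ' μ⁻¹, ← mul_assoc, mul_inv_cancel₀ hμ0, one_mul,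
      Module.End.mul_apply, Module.End.mul_apply, pow_succ' γ, map_mul, Module.End.mul_apply]
  have h0 : f k = f 0 := by
    change (μ⁻¹) ^ k • R (γ ^ k) (Y (R (γ ^ k)⁻¹ (R γ u))) =
      (μ⁻¹) ^ 0 • R (γ ^ 0) (Y (R (γ ^ 0)⁻¹ (R γ u)))
    have h3 : ∀ v, R (γ ^ k)⁻¹ v = v := by
      intro v
      have h4 := Rinv (R := R) (γ ^ k) v
      rwa [hk] at h4
    rw [hk, h3, inv_pow, hμk, inv_one, pow_zero, pow_zero, inv_one, map_one]
    rfl
  rw [h1, h2]
  congr 1
  have h3 := Finset.sum_range_succ f k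
  have h4 := Finset.sum_range_succ' f k
  rw [h3, h0] at h4
  exact (add_right_cancel h4).symm

theorem avg_stable {γ : Γ} {k : ℕ} {μ : K} {Y : End K X} {U : Submodule K X}
    (hγU : ∀ u ∈ U, R γ u ∈ U) (hγU' : ∀ u ∈ U, R γ⁻¹ u ∈ U) (hY : ∀ u ∈ U, Y u ∈ U) :
    ∀ u ∈ U, avg R γ k μ Y u ∈ U := by
  intro u hu
  have h1 : ∀ t : ℕ, ∀ u ∈ U, R (γ ^ t) u ∈ U := by
    intro t
    induction t with
    | zero => intro u hu; simpa using hu
    | succ t ih =>
      intro u hu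
      rw [pow_succ, map_mul, Module.End.mul_apply]
      exact ih _ (hγU u hu)
  have h2 : ∀ t : ℕ, ∀ u ∈ U, R (γ ^ t)⁻¹ u ∈ U := by
    intro t
    induction t with
    | zero => intro u hu; simpa using hu
    | succ t ih =>
      intro u hu
      rw [pow_succ, mul_inv_rev, map_mul, Module.End.mul_apply]
      exact hγU' _ (ih u hu)
  rw [avg, LinearMap.sum_apply]
  refine Submodule.sum_mem _ fun t _ => ?_
  rw [LinearMap.smul_apply]
  exact U.smul_mem _ (h1 t _ (hY _ (h2 t u hu)))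

variable {ω : X →ₗ[K] X →ₗ[K] K} (halt : ∀ v, ω v v = 0)
  {γ : Γ} {U : Submodule K X} {ζ c : K} {l l' : X}

include halt

theorem BiAt.stable (h : BiAt R ω γ U ζ c l l') : ∀ u ∈ U, R γ u ∈ U := by
  intro u hu
  rw [h.2.2.2 u hu]
  exact U.smul_mem _ (U.add_mem (U.add_mem hu (U.smul_mem _ h.1)) (U.smul_mem _ h.2.1))

theorem BiAt.stable' (h : BiAt R ω γ U ζ c l l') : ∀ u ∈ U, R γ⁻¹ u ∈ U := by
  have h1 : U.map (R γ) ≤ U := by
    rintro _ ⟨u, hu, rfl⟩
    exact h.stable halt u hu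
  have hinj : Function.Injective (R γ) := by
    intro u v huv
    rw [← Rinv (R := R) γ u, huv, Rinv]
  have h2 : U.map (R γ) = U := by
    refine Submodule.eq_of_le_of_finrank_eq h1 ?_
    exact (LinearEquiv.finrank_eq (Submodule.equivMapOfInjective (R γ) hinj U)).symm
  intro u hu
  rw [← h2] at hu
  obtain ⟨v, hv, rfl⟩ := hu
  rw [Rinv]
  exact hv

theorem BiAt.order (h : BiAt R ω γ U ζ c l l') (h3 : 3 ≤ finrank K U) {k : ℕ}
    (hγ : R γ ^ k = 1) : c ^ k = 1 ∧ ζ ^ k = 1 := by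
  have hpow : ∀ (v : X) (β : K), R γ v = β • v → ∀ t : ℕ, R (γ ^ t) v = β ^ t • v := by
    intro v β hv t
    induction t with
    | zero => simp
    | succ t ih => rw [pow_succ, map_mul, Module.End.mul_apply, hv, map_smul, ih, smul_smul,
        pow_succ, mul_comm]
  have hk : R (γ ^ k) = 1 := by rw [map_pow, hγ]
  obtain ⟨v, hv, hv0, hv1, hv2⟩ : ∃ v ∈ U, v ≠ 0 ∧ ω l v = 0 ∧ ω v l' = 0 := by
    by_contra hcon
    push Not at hcon
    have hinj2 : Function.Injective ((((ω l).comp U.subtype).prod ((ω.flip l').comp U.subtype)) :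
        U →ₗ[K] K × K) := by
      rw [injective_iff_map_eq_zero]
      intro u hu
      by_contra h4
      have h5 : ω l u = 0 := congrArg Prod.fst hu
      have h6 : ω u l' = 0 := congrArg Prod.snd hu
      exact hcon u u.2 (fun h => h4 (Subtype.ext h)) h5 h6
    have h4 := LinearMap.finrank_le_finrank_of_injective hinj2
    rw [finrank_prod, finrank_self] at h4
    omega
  have hvc : R γ v = c • v := by
    rw [h.2.2.2 v hv, hv1, hv2, mul_zero, mul_zero, zero_smul, zero_smul, add_zero, add_zero]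
  have h5 := hpow v c hvc k
  rw [hk, Module.End.one_apply] at h5
  have h6 : c ^ k = 1 := by
    have h7 : (c ^ k - 1) • v = 0 := by rw [sub_smul, ← h5, one_smul, sub_self]
    exact sub_eq_zero.1 ((smul_eq_zero.1 h7).resolve_right hv0)
  refine ⟨h6, ?_⟩
  have h7 := hpow l _ (h.l_eig halt) k
  rw [hk, Module.End.one_apply, mul_pow, h6, one_mul] at h7
  have h8 : (ζ ^ k - 1) • l = 0 := by rw [sub_smul, ← h7, one_smul, sub_self]
  exact sub_eq_zero.1 ((smul_eq_zero.1 h8).resolve_right (h.ne halt).1)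

/-- The value of the average at `l`. -/
theorem BiAt.avg_l (h : BiAt R ω γ U ζ c l l') {k : ℕ} (hck : c ^ k = 1) (hζk : ζ ^ k = 1)
    (hζ1 : ζ ≠ 1) {Y : End K X} (hY : ∀ u ∈ U, Y u ∈ U) : avg R γ k ζ⁻¹ Y l =
      (k : K) • (Y l - ω (Y l) l' • l - ω l (Y l) • l') := by
  classical
  obtain ⟨hl, hc, hζ⟩ := h.ne halt
  have hpow : ∀ (v : X) (β : K), R γ v = β • v → ∀ t : ℕ, R (γ ^ t) v = β ^ t • v := by
    intro v β hv t
    induction t with
    | zero => simp
    | succ t ih => rw [pow_succ, map_mul, Module.End.mul_apply, hv, map_smul, ih, smul_smul,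
        pow_succ, mul_comm]
  have hpow' : ∀ (v : X) (β : K), β ≠ 0 → R γ v = β • v → ∀ t : ℕ,
      R (γ ^ t)⁻¹ v = (β⁻¹) ^ t • v := by
    intro v β hβ hv t
    have h1 := hpow v β hv t
    have h2 : R (γ ^ t)⁻¹ (R (γ ^ t) v) = v := Rinv _ _
    rw [h1, map_smul] at h2
    rw [inv_pow, ← h2, smul_smul, inv_mul_cancel₀ (pow_ne_zero _ hβ), one_smul, h2]
  obtain ⟨g1, g2⟩ := h.h_eig halt (hY l h.1)
  set v := Y l - ω (Y l) l' • l - ω l (Y l) • l' with hv
  have hYl : Y l = v + ω (Y l) l' • l + ω l (Y l) • l' := by rw [hv]; abel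
  set x := ω (Y l) l'
  set x' := ω l (Y l)
  clear_value v x x'
  have hterm : ∀ t : ℕ, ((ζ⁻¹)⁻¹) ^ t • (R (γ ^ t) * Y * R (γ ^ t)⁻¹) l =
      v + (ζ ^ t * x) • l + ((ζ⁻¹) ^ t * x') • l' := by
    intro t
    rw [Module.End.mul_apply, Module.End.mul_apply,
      hpow' l _ (mul_ne_zero hc hζ) (h.l_eig halt) t, map_smul, map_smul, hYl, map_add, map_add,
      map_smul, map_smul, hpow v c g2 t, hpow l _ (h.l_eig halt) t, hpow l' _ (h.l'_eig halt) t,
      inv_inv]
    have h4 : (c⁻¹) ^ t * c ^ t = 1 := by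
      rw [← mul_pow, inv_mul_cancel₀ hc, one_pow]
    have h5 : (ζ⁻¹) ^ t * ζ ^ t = 1 := by
      rw [← mul_pow, inv_mul_cancel₀ hζ, one_pow]
    rw [mul_inv, mul_pow, mul_pow, mul_pow]
    generalize (c⁻¹) ^ t = c1 at *
    generalize c ^ t = c2 at *
    generalize (ζ⁻¹) ^ t = z1 at *
    generalize ζ ^ t = z2 at *
    match_scalars
    · linear_combination z2 * z1 * h4 + h5
    · linear_combination z2 * z1 * z2 * x * h4 + z2 * x * h5
    · linear_combination z2 * z1 * z1 * x' * h4 + z1 * x' * h5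
  rw [avg, LinearMap.sum_apply]
  simp only [LinearMap.smul_apply]
  have h0 : ∑ t ∈ Finset.range k, ζ ^ t = 0 := by
    rw [geom_root hζk, if_neg hζ1]
  have h0' : ∑ t ∈ Finset.range k, (ζ⁻¹) ^ t = 0 := by
    rw [geom_root (by rw [inv_pow, hζk, inv_one]), if_neg (fun h2 => hζ1 (inv_eq_one.1 h2))]
  rw [Finset.sum_congr rfl fun t _ => hterm t, Finset.sum_add_distrib, Finset.sum_add_distrib,
    ← Finset.sum_smul, ← Finset.sum_smul, ← Finset.sum_mul, ← Finset.sum_mul, h0, h0', zero_mul,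
    zero_mul, zero_smul, zero_smul, add_zero, add_zero, Finset.sum_const, Finset.card_range,
    Nat.cast_smul_eq_nsmul]

/-- The rank of the average. -/
theorem BiAt.rank_le (h : BiAt R ω γ U ζ c l l') (hζ1 : ζ ≠ 1) (hζ2 : ζ ≠ -1) (hζ3 : ζ ^ 3 ≠ 1)
    {N : End K X} (hNU : ∀ u ∈ U, N u ∈ U) (hμ : ∀ u, R γ (N u) = ζ⁻¹ • N (R γ u)) :
    finrank K (U.map N) ≤ 2 := by
  classical
  obtain ⟨hl, hc, hζ⟩ := h.ne halt
  have hζζ : ζ * ζ ≠ 1 := mu_sq hζ1 hζ2
  have hNl' : N l' = 0 := by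
    by_contra h0
    have e1 := N_eig (N := N) hμ (h.l'_eig halt)
    rcases h.eig3 halt (hNU _ h.2.1) h0 e1 with g | g | g
    · apply hζζ
      have g2 : ζ⁻¹ * ζ⁻¹ * (ζ * ζ) = 1 := by field_simp
      rw [g, one_mul] at g2
      exact g2
    · apply hζ3
      have g2 : ζ⁻¹ * ζ⁻¹ * (ζ * ζ) = 1 := by field_simp
      rw [g] at g2
      linear_combination g2
    · apply hζ1
      have g2 : ζ⁻¹ * ζ⁻¹ * (ζ * ζ) = 1 := by field_simp
      rw [g] at g2
      have g3 : ζ⁻¹ * (ζ * ζ) = ζ := by field_simp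
      rw [← g2, g3]
  have hle : U.map N ≤ Submodule.span K ({N l, l'} : Set X) := by
    rintro _ ⟨u, hu, rfl⟩
    obtain ⟨g1, g2⟩ := h.h_eig halt hu
    set v := u - ω u l' • l - ω l u • l' with hv
    have hul : u = v + ω u l' • l + ω l u • l' := by rw [hv]; abel
    rw [hul, map_add, map_add, map_smul, map_smul, hNl', smul_zero, add_zero]
    have hl1 : N l ∈ Submodule.span K ({N l, l'} : Set X) := Submodule.subset_span (by simp)
    have hl2 : l' ∈ Submodule.span K ({N l, l'} : Set X) := Submodule.subset_span (by simp)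
    refine Submodule.add_mem _ ?_ (Submodule.smul_mem _ _ hl1)
    have hvr : R γ v = (c * 1) • v := by rw [mul_one]; exact g2
    have e1 := N_eig (N := N) hμ hvr
    obtain ⟨f1, -, f3⟩ := h.eig halt (hNU v g1) e1
    rw [mul_one] at f1 f3
    have f4 : ω (N v) l' = 0 := by
      refine f1.resolve_left fun g => hζζ ?_
      nth_rewrite 1 [← g]
      exact inv_mul_cancel₀ hζ
    rw [f4, mul_zero, zero_smul, zero_add] at f3
    have f5 : ζ⁻¹ - 1 ≠ 0 := sub_ne_zero.2 fun g => hζ1 (inv_eq_one.1 g)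
    have f6 : N v = ω l (N v) • l' := by
      rw [mul_smul] at f3
      exact smul_right_injective _ f5 f3
    rw [f6]
    exact Submodule.smul_mem _ _ hl2
  refine (Submodule.finrank_mono hle).trans ?_
  have h1 := finrank_span_finset_le_card (R := K) ({N l, l'} : Finset X)
  have h2 : ((({N l, l'} : Finset X) : Set X)) = {N l, l'} := by simp
  rw [h2] at h1
  exact h1.trans Finset.card_le_two

end Pool.Agent.TH118.CU
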